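import Pool.Agent.H42.RD.WLevel

/-!
# The windmill theorem
-/

set_option autoImplicit false

namespace Pool.Agent.H33.RD

namespace CD

variable {H V C : Type} [Group H] [MulAction H V] [MulAction H C] {P : CD H V C} {a : V}

variable (P a) in
/-- The main inductive claim. -/
def Claim (B c₃ k : ℕ) : Prop :=
  ∀ w ∈ P.Nk a k, ∀ k', k ≤ k' → ∀ x x' : V ⊕ C, (∀ u ∈ P.Uk a k, x ≠ Sum.inr u) →
    (∀ u ∈ P.Uk a k, x' ≠ Sum.inr u) → P.Gd a c₃ k x → P.Gd a c₃ k x' →
    P.D.d (Sum.inl a) x ≤ k' → P.D.d (Sum.inl a) x' ≤ k' →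
    ∀ v : C, (∀ w' ∈ P.Nk a k, k' ≤ P.D.d (w' • Sum.inl a) (Sum.inr v)) →
    x ≠ Sum.inr v → w • x' ≠ Sum.inr v → P.Small (2 * B) v x (w • x')

theorem claim_zero {B c₃ : ℕ} (hB : P.BGI B) : P.Claim a B c₃ 0 := by
  intro w hw k' _ x x' _ _ _ _ hx hx' v hv hxv hxv'
  have hw1 := Nk_zero hw
  subst hw1
  rw [one_smul] at hxv' ⊢
  have h0 := hv 1 (one_mem _)
  rw [one_smul] at h0
  have key : ∀ y : V ⊕ C, y ≠ Sum.inr v → P.D.d (Sum.inl a) y ≤ k' →
      P.Small B v (Sum.inl a) y := by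
    intro y hy hyk
    refine hB v _ _ (by simp) hy ?_
    have := D_pos (P := P) hy
    rw [P.D.comm] at this
    omega
  have := (key x hxv hx).symm.trans (by simp) (key x' hxv' hx')
  exact this.mono (by omega)

theorem smul_inl_ne {w : H} {u : C} : w • (Sum.inl a : V ⊕ C) ≠ Sum.inr u := by
  rw [Sum.smul_inl]; simp

section Step

variable {B c₃ k : ℕ} (hB : P.BGI B) (h3 : B ≤ c₃) (hcl : P.Claim a B c₃ k)

include hB h3 hcl

theorem E0 {v : C} (hv : v ∈ P.GN a c₃ k) {w : H} (hw : w ∈ P.Nk a k) :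
    P.Small (2 * B) v (Sum.inl a) (w • Sum.inl a) :=
  hcl w hw k le_rfl _ _ (fun _ _ => by simp) (fun _ _ => by simp) (Gd_a hB h3 k) (Gd_a hB h3 k)
    (by rw [P.D.self]; exact Nat.zero_le _) (by rw [P.D.self]; exact Nat.zero_le _) v hv.1.2
    (by simp) smul_inl_ne

theorem E1 {v v' : C} (hv : v ∈ P.GN a c₃ k) (hv' : v' ∈ P.GN a c₃ k) {w : H}
    (hw : w ∈ P.Nk a k) (hne : v ≠ w • v') :
    P.Small (2 * B) v (Sum.inl a) (Sum.inr (w • v')) := by
  have := hcl w hw k le_rfl (Sum.inl a) (Sum.inr v') (fun _ _ => by simp)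
    (fun u hu h => New_not_Uk hv'.1 (by rw [Sum.inr_injective h]; exact hu)) (Gd_a hB h3 k) hv'.2
    (by rw [P.D.self]; exact Nat.zero_le _) (by rw [hv'.1.1]) v hv.1.2
    (by simp) (by rw [Sum.smul_inr]; exact fun h => hne (Sum.inr_injective h).symm)
  rwa [Sum.smul_inr] at this

theorem near0 {v : C} (hv : v ∈ P.GN a c₃ k) {w₀ w : H} (hw₀ : w₀ ∈ P.Nk a k)
    (hw : w ∈ P.Nk a k) : P.Small (4 * B) (w₀ • v) (Sum.inl a) (w • Sum.inl a) := by
  have h1 := (E0 hB h3 hcl hv (inv_mem hw₀)).symm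
  have h2 := E0 hB h3 hcl hv (mul_mem (inv_mem hw₀) hw)
  have h4 := (h1.trans (by simp) h2).smul w₀
  rw [smul_inv_smul, mul_smul, smul_inv_smul] at h4
  exact h4.mono (by omega)

theorem near1 {v v' : C} (hv : v ∈ P.GN a c₃ k) (hv' : v' ∈ P.GN a c₃ k) {w₀ : H}
    (hw₀ : w₀ ∈ P.Nk a k) (hne : w₀ • v' ≠ v) :
    P.Small (4 * B) (w₀ • v') (Sum.inl a) (Sum.inr v) := by
  have h1 := (E0 hB h3 hcl hv' (inv_mem hw₀)).symm
  have h2 := E1 hB h3 hcl hv' hv (inv_mem hw₀) (fun h => hne (by rw [h, smul_inv_smul]))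
  have h4 := (h1.trans (by simp) h2).smul w₀
  rw [smul_inv_smul, Sum.smul_inr, smul_inv_smul] at h4
  exact h4.mono (by omega)

omit hB h3 hcl in
theorem smul_ne {k : ℕ} {x' : V ⊕ C} (hx' : ∀ u ∈ P.Uk a k, x' ≠ Sum.inr u) {w : H}
    (hw : w ∈ P.Nk a k) {u : C} (hu : u ∈ P.Uk a k) : w • x' ≠ Sum.inr u := by
  intro h
  apply hx' (w⁻¹ • u) (Uk_smul hu (inv_mem hw))
  rw [← Sum.smul_inr, ← h, inv_smul_smul]

variable {Θ T K₁ : ℕ} (hrot : P.Rot Θ) (hT : 2 * T + c₃ < Θ) (hK : K₁ + 4 * B ≤ T)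
  (hK' : 19 * B ≤ K₁)

include hK' in
theorem core_some {x' : V ⊕ C} (hx' : ∀ u ∈ P.Uk a (k + 1), x' ≠ Sum.inr u) {m : ℕ} {u' : C}
    {w : H} (h : P.RF a c₃ k m (some u') w) {v : C} (hv : v ∈ P.GN a c₃ k) (hne : u' ≠ v)
    (hbig : P.Big K₁ u' (Sum.inl a) (w • x')) :
    P.Small (2 * B) v (Sum.inl a) (w • x') := by
  obtain ⟨w₀, hw₀, v', hv', rfl⟩ := h.center rfl
  have h1 := near1 hB h3 hcl hv hv' hw₀ hne
  have hu := New_mem_Uk hv'.1 hw₀
  have hwx : w • x' ≠ Sum.inr (w₀ • v') := smul_ne hx' h.mem hu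
  have h2 : P.Big (2 * B) (w₀ • v') (w • x') (Sum.inr v) :=
    Big.trans (by simp) (hbig.symm.mono (by omega)) h1
  have h4 := B3 hB hne hwx h2
  intro p hp q hq
  rw [h4] at hq
  exact E1 hB h3 hcl hv hv' hw₀ (Ne.symm hne) p hp q hq

include hrot hT hK hK' in
theorem alpha {x' : V ⊕ C} (hx' : ∀ u ∈ P.Uk a (k + 1), x' ≠ Sum.inr u)
    (hgx' : P.Gd a c₃ (k + 1) x') {m : ℕ} {o : Option C} {w : H} (h : P.RF a c₃ k m o w) :
    ∀ u, o = some u → P.Big K₁ u (Sum.inl a) (w • x') := by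
  induction h with
  | nil w hw => intro u hu; exact absurd hu (by simp)
  | cons w₀ v s m o w h₀ hv hs hs1 h ho ih =>
    rintro u hu
    obtain rfl := Option.some_injective _ hu
    have hcore : P.Big (K₁ + 2 * B) v (Sum.inl a) (s • w • x') := by
      rcases o with _ | u'
      · have hw : w ∈ P.Nk a k := by
          cases h with
          | nil w hw => exact hw
        have hu' : w⁻¹ • v ∈ P.Uk a (k + 1) := New_mem_Uk hv.1 (inv_mem hw)
        have ht : w⁻¹ * s⁻¹ * w ∈ P.G (w⁻¹ • v) := by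
          have := P.Gconj w⁻¹ v s⁻¹ (inv_mem hs)
          rwa [inv_inv] at this
        have ht1 : w⁻¹ * s⁻¹ * w ≠ 1 := by
          intro h1
          apply hs1
          have : s⁻¹ = w * (w⁻¹ * s⁻¹ * w) * w⁻¹ := by group
          rw [h1, mul_one, mul_inv_cancel] at this
          exact inv_eq_one.mp this
        have h1 := (Gd_big hrot hT hgx' hu' (hx' _ hu') ht ht1).smul (s * w)
        have e1 : (s * w) • w⁻¹ • v = v := by
          rw [← mul_smul, mul_inv_cancel_right, P.Gfix v s hs]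
        have e2 : (s * w) • (w⁻¹ * s⁻¹ * w) • (Sum.inl a : V ⊕ C) = w • Sum.inl a := by
          rw [← mul_smul]; congr 1; group
        rw [e1, e2, mul_smul] at h1
        have h2 := (E0 hB h3 hcl hv hw).symm
        exact (Big.trans smul_inl_ne (h1.symm.mono (by omega)) h2).symm
      · have hne : u' ≠ v := fun h => ho (by rw [h])
        have h1 := core_some hB h3 hcl hK' hx' h hv hne (ih u' rfl)
        have hv' : v ∈ P.Uk a (k + 1) := by
          have := New_mem_Uk hv.1 (one_mem (P.Nk a k))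
          rwa [one_smul] at this
        have hwx : w • x' ≠ Sum.inr v := smul_ne hx' h.mem hv'
        have h2 : P.Big (K₁ + 4 * B) v (w • x') (s • w • x') :=
          rot_big hB hrot (by omega) hwx hs hs1
        exact (Big.trans hwx (h2.symm.mono (by omega)) h1.symm).symm
    have h1 := E0 hB h3 hcl hv (inv_mem h₀)
    have h2 := (Big.trans (by simp) hcore.symm h1).symm.smul w₀
    rw [smul_inv_smul, ← mul_smul, ← mul_smul] at h2
    exact h2

include hrot hT hK hK' in
theorem main_step {k' : ℕ} (hk' : k + 1 ≤ k') {x' : V ⊕ C}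
    (hx' : ∀ u ∈ P.Uk a (k + 1), x' ≠ Sum.inr u) (hgx' : P.Gd a c₃ (k + 1) x')
    (hdx' : P.D.d (Sum.inl a) x' ≤ k') {m : ℕ} {o : Option C} {w : H}
    (h : P.RF a c₃ k m o w) :
    ∀ (x : V ⊕ C) (v : C), (∀ u ∈ P.Uk a k, x ≠ Sum.inr u) → P.Gd a c₃ k x →
      P.D.d (Sum.inl a) x ≤ k' →
      (∀ u, o = some u → x ≠ Sum.inr u ∧ ∀ s ∈ P.G u, s ≠ 1 → P.Big T u (s • Sum.inl a) x) →
      (∀ w' ∈ P.Nk a (k + 1), k' ≤ P.D.d (w' • Sum.inl a) (Sum.inr v)) →
      x ≠ Sum.inr v → w • x' ≠ Sum.inr v → P.Small (2 * B) v x (w • x') := by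
  induction h with
  | nil w hw =>
    intro x v hx hgx hdx _ hv hxv hxv'
    exact hcl w hw k' (by omega) x x' hx (fun u hu => hx' u (Uk_mono (Nat.le_succ k) hu)) hgx
      (Gd_mono (Nat.le_succ k) hgx') hdx hdx' v
      (fun w' hw' => hv w' (Nk_mono (Nat.le_succ k) hw')) hxv hxv'
  | cons w₀ v₁ s m o w h₀ hv₁ hs hs1 h ho ih =>
    intro x v hx hgx hdx hcond hv hxv hxv'
    have hRF := RF.cons w₀ v₁ s m o w h₀ hv₁ hs hs1 h ho
    obtain ⟨hxu, hxT⟩ := hcond _ rfl
    have hα := alpha hB h3 hcl hrot hT hK hK' hx' hgx' hRF _ rfl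
    have hW := hRF.mem
    have hu := New_mem_Uk hv₁.1 h₀
    have hwu : (w₀ * s * w) • x' ≠ Sum.inr (w₀ • v₁) := smul_ne hx' hW hu
    have hsW : w₀ * s ∈ P.Nk a (k + 1) :=
      mul_mem (Nk_mono (Nat.le_succ k) h₀)
        (G_le_Nk (by rw [hv₁.1.1]; exact Nat.lt_succ_self k) hs)
    have hu_eq : (w₀ * s) • v₁ = w₀ • v₁ := by rw [mul_smul, P.Gfix v₁ s hs]
    have hvu : w₀ • v₁ ≠ v := by
      rintro rfl
      have h1 := hv w₀ (Nk_mono (Nat.le_succ k) h₀)
      rw [← Sum.smul_inr, P.Dinv, hv₁.1.1] at h1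
      omega
    have hvu' : (Sum.inr v : V ⊕ C) ≠ Sum.inr (w₀ • v₁) :=
      fun h => hvu (Sum.inr_injective h).symm
    have huv' : (Sum.inr (w₀ • v₁) : V ⊕ C) ≠ Sum.inr v :=
      fun h => hvu (Sum.inr_injective h)
    by_cases hbig : P.Big (5 * B) (w₀ • v₁) x ((w₀ * s * w) • x')
    · have hor : P.Big (2 * B) (w₀ • v₁) x (Sum.inr v) ∨
          P.Big (2 * B) (w₀ • v₁) (Sum.inr v) ((w₀ * s * w) • x') := by
        by_contra hcon
        rw [not_or] at hcon
        obtain ⟨hc1, hc2⟩ := hcon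
        unfold Big at hc1 hc2
        push Not at hc1 hc2
        obtain ⟨p, hp, q, hq, h1⟩ := hc1
        obtain ⟨q', hq', r, hr, h2⟩ := hc2
        have h4 := E_diam hB hvu' q hq q' hq'
        have h5 := hbig p hp r hr
        have h6 := P.X.tri p q r
        have h7 := P.X.tri q q' r
        omega
      rcases hor with h1 | h1
      · -- (a2)
        have e1 := B3 hB hvu hxu h1
        have h2 := ih (Sum.inr v₁) ((w₀ * s)⁻¹ • v)
          (fun u hu h => New_not_Uk hv₁.1 (by rw [Sum.inr_injective h]; exact hu)) hv₁.2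
          (by rw [hv₁.1.1]; omega) ?_ ?_ ?_ ?_
        · have h4 := h2.smul (w₀ * s)
          rw [smul_inv_smul, Sum.smul_inr, hu_eq, ← mul_smul] at h4
          intro p hp q hq
          rw [e1] at hp
          exact h4 p hp q hq
        · intro u₂ hu₂
          subst hu₂
          have hne : u₂ ≠ v₁ := fun h => ho (by rw [h])
          refine ⟨fun h => hne (Sum.inr_injective h).symm, fun s₂ hs₂ hs₂1 => ?_⟩
          obtain ⟨w₂, hw₂, v₂, hv₂, rfl⟩ := h.center rfl
          have h4 := near1 hB h3 hcl hv₁ hv₂ hw₂ hne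
          have h5 : P.Big (T + 4 * B) (w₂ • v₂) (Sum.inl a) (s₂ • Sum.inl a) :=
            rot_big hB hrot (by omega) (by simp) hs₂ hs₂1
          exact Big.trans (by simp) h5.symm h4
        · intro w' hw'
          have h4 := hv (w₀ * s * w') (mul_mem hsW hw')
          rw [← P.Dinv (w₀ * s)⁻¹, ← mul_smul, inv_mul_cancel_left, Sum.smul_inr] at h4
          exact h4
        · intro h4
          apply hvu
          rw [← hu_eq, Sum.inr_injective h4, smul_inv_smul]
        · intro h4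
          apply hxv'
          rw [mul_smul, h4, Sum.smul_inr, smul_inv_smul]
      · -- (a1)
        have e1 := B3 hB hvu hwu h1.symm
        have h2 := hcl w₀ h₀ k' (by omega) x (Sum.inr v₁) hx
          (fun u hu h => New_not_Uk hv₁.1 (by rw [Sum.inr_injective h]; exact hu)) hgx hv₁.2 hdx
          (by rw [hv₁.1.1]; omega) v (fun w' hw' => hv w' (Nk_mono (Nat.le_succ k) hw')) hxv
          (by rw [Sum.smul_inr]; exact huv')
        rw [Sum.smul_inr] at h2
        intro p hp q hq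
        rw [e1] at hq
        exact h2 p hp q hq
    · have hsmall := small_of_not_big hB hxu hwu hbig
      have hss : w₀ * s * w₀⁻¹ ∈ P.G (w₀ • v₁) := P.Gconj w₀ v₁ s hs
      have hss1 : w₀ * s * w₀⁻¹ ≠ 1 := by
        intro h1
        apply hs1
        have : s = w₀⁻¹ * (w₀ * s * w₀⁻¹) * w₀ := by group
        rw [h1] at this
        rw [this]; group
      have hMx := hxT _ hss hss1
      rcases o with _ | u'
      · have hw : w ∈ P.Nk a k := by
          cases h with
          | nil w hw => exact hw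
        have hn := (near0 hB h3 hcl hv₁ h₀ (mul_mem h₀ hw)).smul (w₀ * s * w₀⁻¹)
        rw [P.Gfix _ _ hss, ← mul_smul] at hn
        have e2 : w₀ * s * w₀⁻¹ * (w₀ * w) = w₀ * s * w := by group
        rw [e2] at hn
        have hwaX : P.Big (19 * B) (w₀ • v₁) ((w₀ * s * w) • Sum.inl a) x :=
          (Big.trans smul_inl_ne (hMx.symm.mono (by omega)) hn).symm
        have hax : P.Big (12 * B) (w₀ • v₁) (Sum.inl a) x :=
          Big.trans hwu (hα.mono (by omega)) hsmall.symm
        by_cases h9 : P.Big (9 * B) (w₀ • v₁) (Sum.inr v) x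
        · have h1 : P.Big (2 * B) (w₀ • v₁) (Sum.inr v) ((w₀ * s * w) • x') :=
            Big.trans hxu (h9.mono (by omega)) hsmall
          have e3 := B3 hB hvu hxu (h9.symm.mono (by omega))
          have e4 := B3 hB hvu hwu h1.symm
          intro p hp q hq
          rw [e3] at hp
          rw [e4] at hq
          have := E_diam hB huv' p hp q hq
          omega
        · have hvx := small_of_not_big hB hvu' hxu h9
          have hav : P.Big B (w₀ • v₁) (Sum.inl a) (Sum.inr v) :=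
            Big.trans hxu (hax.mono (by omega)) hvx.symm
          have d1 := B1 hB (by simp) hvu' hav
          have d2 := B1 hB (by simp) hxu (hax.mono (by omega))
          have d3 := hv 1 (one_mem _)
          rw [one_smul] at d3
          have s1 : P.Small B v (Sum.inr (w₀ • v₁)) x := by
            refine hB v _ _ huv' hxv ?_
            have := D_pos (P := P) hxv
            rw [P.D.comm] at this
            omega
          have hwv : P.Big B (w₀ • v₁) ((w₀ * s * w) • Sum.inl a) (Sum.inr v) :=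
            Big.trans hxu (hwaX.mono (by omega)) hvx.symm
          have hwx : P.Big B (w₀ • v₁) ((w₀ * s * w) • Sum.inl a) ((w₀ * s * w) • x') :=
            Big.trans hxu (hwaX.mono (by omega)) hsmall
          have d4 := B1 hB smul_inl_ne hvu' hwv
          have d5 := B1 hB smul_inl_ne hwu hwx
          rw [P.Dinv] at d5
          have d6 := hv _ hW
          have s2 : P.Small B v (Sum.inr (w₀ • v₁)) ((w₀ * s * w) • x') := by
            refine hB v _ _ huv' hxv' ?_
            have := D_pos (P := P) hxv'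
            rw [P.D.comm] at this
            omega
          exact (s1.symm.trans huv' s2).mono (by omega)
      · exfalso
        have hne : u' ≠ v₁ := fun h => ho (by rw [h])
        have h1 := core_some hB h3 hcl hK' hx' h hv₁ hne
          (alpha hB h3 hcl hrot hT hK hK' hx' hgx' h _ rfl)
        have h2 := h1.smul (w₀ * s)
        rw [hu_eq, ← mul_smul (w₀ * s) w] at h2
        have h4 := (E0 hB h3 hcl hv₁ (inv_mem h₀)).smul (w₀ * s)
        rw [hu_eq, ← mul_smul] at h4
        have h5 := (hsmall.trans hwu h2.symm).trans smul_inl_ne h4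
        exact hMx.not_small (t' := 11 * B) (by omega) smul_inl_ne hxu (h5.symm.mono (by omega))

end Step

end CD

open CD in
/-- The windmill theorem. -/
theorem windmill {H V C : Type} [Group H] [MulAction H V] [MulAction H C] (P : CD H V C)
    (B c₃ K Θ : ℕ) (dst : V → V ⊕ C → ℕ) (hB : P.BGI B) (hdst : P.Shorten dst c₃) (hrot : P.Rot Θ)
    (hΘ : 100 * B + 10 * c₃ + 10 * K + 100 ≤ Θ) : ∀ a : V, ∀ ν ∈ P.N, P.Red K a ν := by
  intro a ν hν
  obtain ⟨k, hk⟩ := mem_N hν a
  obtain ⟨c, hc⟩ : ∃ c, c = c₃ + 3 * B := ⟨_, rfl⟩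
  obtain ⟨T, hT⟩ : ∃ T, T = 40 * B + 4 * K + 40 := ⟨_, rfl⟩
  obtain ⟨K₁, hK₁⟩ : ∃ K₁, K₁ = 36 * B + 4 * K + 40 := ⟨_, rfl⟩
  have h3 : B ≤ c := by omega
  have hclaim : ∀ k, P.Claim a B c k := by
    intro k
    induction k with
    | zero => exact claim_zero hB
    | succ k ih =>
      intro w hw k' hk' x x' hx hx' hgx hgx' hdx hdx' v hv hxv hxv'
      obtain ⟨m, o, hRF⟩ := exists_RF hB hdst (c₃' := c) (by omega) (by omega) hw
      refine main_step (K₁ := K₁) (T := T) hB h3 ih hrot (by omega) (by omega) (by omega) hk' hx'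
        hgx' hdx' hRF x v (fun u hu => hx u (Uk_mono (Nat.le_succ k) hu))
        (Gd_mono (Nat.le_succ k) hgx) hdx ?_ hv hxv hxv'
      intro u hu
      obtain ⟨w₀, hw₀, v', hv', rfl⟩ := hRF.center hu
      have huU := New_mem_Uk hv'.1 hw₀
      exact ⟨hx _ huU, fun s hs hs1 => Gd_big hrot (by omega) hgx huU (hx _ huU) hs hs1⟩
  have hred : ∀ k, ∀ w ∈ P.Nk a k, P.Red K a w := by
    intro k
    induction k with
    | zero =>
      intro w hw
      rw [Nk_zero hw]
      exact Red.one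
    | succ k ih =>
      intro w hw
      obtain ⟨m, o, hRF⟩ := exists_RF hB hdst (c₃' := c) (by omega) (by omega) hw
      clear hw
      induction m generalizing o w with
      | zero =>
        cases hRF with
        | nil w hw => exact ih w hw
      | succ m ihm =>
        have h1 := alpha (K₁ := K₁) (T := T) (x' := Sum.inl a) hB h3 (hclaim k) hrot (by omega)
          (by omega) (by omega) (fun _ _ => by simp) (Gd_a hB h3 (k + 1)) hRF
        cases hRF with
        | cons w₀ v s m o w h₀ hv hs hs1 h ho =>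
          refine Red.step _ (w₀ • v) (w₀ * s⁻¹ * w₀⁻¹) (P.Gconj w₀ v _ (inv_mem hs)) ?_ ?_
          · intro p hp q hq
            have h2 := h1 _ rfl p hp q (by rw [Sum.smul_inl]; exact hq)
            omega
          · have e1 : w₀ * s⁻¹ * w₀⁻¹ * (w₀ * s * w) = w₀ * w := by group
            rw [e1]
            exact ihm _ _ (h.smul h₀)
  exact hred k ν hk

end Pool.Agent.H33.RD
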