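import Pool.Agent.H33.RD.Cone

/-!
# Windmill theorem: basic facts on entry sets
-/

set_option autoImplicit false

namespace Pool.Agent.H33.RD

namespace CD

variable {H V C : Type} [Group H] [MulAction H V] [MulAction H C] (P : CD H V C)

/-- all pairs of entry points are at distance more than `t` -/
def Big (t : ℕ) (c : C) (z z' : V ⊕ C) : Prop := ∀ p ∈ P.E c z, ∀ q ∈ P.E c z', t < P.X.d p q

/-- all pairs of entry points are at distance at most `t` -/
def Small (t : ℕ) (c : C) (z z' : V ⊕ C) : Prop := ∀ p ∈ P.E c z, ∀ q ∈ P.E c z', P.X.d p q ≤ t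

variable {P}

theorem Big.symm {t : ℕ} {c : C} {z z' : V ⊕ C} (h : P.Big t c z z') : P.Big t c z' z :=
  fun p hp q hq => by rw [P.X.comm]; exact h q hq p hp

theorem Small.symm {t : ℕ} {c : C} {z z' : V ⊕ C} (h : P.Small t c z z') : P.Small t c z' z :=
  fun p hp q hq => by rw [P.X.comm]; exact h q hq p hp

theorem Big.mono {t t' : ℕ} (ht : t' ≤ t) {c : C} {z z' : V ⊕ C} (h : P.Big t c z z') :
    P.Big t' c z z' := fun p hp q hq => lt_of_le_of_lt ht (h p hp q hq)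

theorem Small.mono {t t' : ℕ} (ht : t ≤ t') {c : C} {z z' : V ⊕ C} (h : P.Small t c z z') :
    P.Small t' c z z' := fun p hp q hq => (h p hp q hq).trans ht

theorem D_pos {x y : V ⊕ C} (h : x ≠ y) : 1 ≤ P.D.d x y := by
  by_contra h0
  exact h (P.D.eq0 x y (by omega))

theorem E_nonempty {c : C} {z : V ⊕ C} (h : z ≠ Sum.inr c) : (P.E c z).Nonempty := by
  have h1 := D_pos (P := P) h
  obtain ⟨w, hw1, hw2⟩ := P.D.geod z (Sum.inr c) (P.D.d z (Sum.inr c) - 1) (by omega)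
  have hw3 : P.D.d w (Sum.inr c) = 1 := by omega
  rcases w with p | c'
  · exact ⟨p, (P.adj p c).mp hw3, by omega⟩
  · exact absurd hw3 (P.nadj c' c)

theorem E_diam {B : ℕ} (hB : P.BGI B) {c : C} {z : V ⊕ C} (h : z ≠ Sum.inr c) :
    P.Small B c z z := by
  have h1 := D_pos (P := P) h
  refine hB c z z h h ?_
  rw [P.D.self, P.D.comm (Sum.inr c) z]
  omega

theorem smul_mem_E {c : C} {z : V ⊕ C} {p : V} (h : H) (hp : p ∈ P.E c z) :
    h • p ∈ P.E (h • c) (h • z) := by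
  refine ⟨P.Yinv h p c hp.1, ?_⟩
  have h1 := P.Dinv h z (Sum.inl p)
  have h2 := P.Dinv h z (Sum.inr c)
  rw [Sum.smul_inl] at h1
  rw [Sum.smul_inr] at h2
  rw [h1, h2]
  exact hp.2

theorem mem_E_smul {c : C} {z : V ⊕ C} {p : V} (h : H) (hp : p ∈ P.E (h • c) (h • z)) :
    h⁻¹ • p ∈ P.E c z := by
  have := smul_mem_E h⁻¹ hp
  rwa [inv_smul_smul, inv_smul_smul] at this

theorem Small.smul {t : ℕ} {c : C} {z z' : V ⊕ C} (hs : P.Small t c z z') (h : H) :
    P.Small t (h • c) (h • z) (h • z') := by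
  intro p hp q hq
  have h1 := hs _ (mem_E_smul h hp) _ (mem_E_smul h hq)
  rwa [P.Xinv] at h1

theorem Big.smul {t : ℕ} {c : C} {z z' : V ⊕ C} (hs : P.Big t c z z') (h : H) :
    P.Big t (h • c) (h • z) (h • z') := by
  intro p hp q hq
  have h1 := hs _ (mem_E_smul h hp) _ (mem_E_smul h hq)
  rwa [P.Xinv] at h1

theorem Small.trans {t t' : ℕ} {c : C} {z z' z'' : V ⊕ C} (hz : z' ≠ Sum.inr c)
    (h1 : P.Small t c z z') (h2 : P.Small t' c z' z'') : P.Small (t + t') c z z'' := by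
  intro p hp r hr
  obtain ⟨q, hq⟩ := E_nonempty (P := P) hz
  exact (P.X.tri p q r).trans (add_le_add (h1 p hp q hq) (h2 q hq r hr))

theorem Big.trans {t t' : ℕ} {c : C} {z z' z'' : V ⊕ C} (hz : z' ≠ Sum.inr c)
    (h1 : P.Big (t + t') c z z') (h2 : P.Small t' c z' z'') : P.Big t c z z'' := by
  intro p hp r hr
  obtain ⟨q, hq⟩ := E_nonempty (P := P) hz
  have h3 := h1 p hp q hq
  have h4 := h2 q hq r hr
  have h5 := P.X.tri p r q
  rw [P.X.comm r q] at h5
  omega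

theorem Big.not_small {t t' : ℕ} (ht : t' ≤ t) {c : C} {z z' : V ⊕ C} (hz : z ≠ Sum.inr c)
    (hz' : z' ≠ Sum.inr c) (h1 : P.Big t c z z') (h2 : P.Small t' c z z') : False := by
  obtain ⟨p, hp⟩ := E_nonempty (P := P) hz
  obtain ⟨q, hq⟩ := E_nonempty (P := P) hz'
  have h3 := h1 p hp q hq
  have h4 := h2 p hp q hq
  omega

theorem small_of_not_big {B : ℕ} (hB : P.BGI B) {t : ℕ} {c : C} {z z' : V ⊕ C}
    (hz : z ≠ Sum.inr c) (hz' : z' ≠ Sum.inr c) (h : ¬ P.Big t c z z') :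
    P.Small (t + 2 * B) c z z' := by
  unfold Big at h
  push Not at h
  obtain ⟨p, hp, q, hq, h1⟩ := h
  intro p' hp' q' hq'
  have h2 := E_diam hB hz p' hp' p hp
  have h3 := E_diam hB hz' q hq q' hq'
  have h4 := P.X.tri p' p q'
  have h5 := P.X.tri p q q'
  omega

theorem B1 {B : ℕ} (hB : P.BGI B) {c : C} {z z' : V ⊕ C}
    (hz : z ≠ Sum.inr c) (hz' : z' ≠ Sum.inr c) (h : P.Big B c z z') :
    P.D.d z z' = P.D.d z (Sum.inr c) + P.D.d (Sum.inr c) z' := by
  have h1 := P.D.tri z (Sum.inr c) z'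
  by_contra h2
  exact h.not_small le_rfl hz hz' (hB c z z' hz hz' (by omega))

theorem B3 {B : ℕ} (hB : P.BGI B) {c c' : C} (hc : c ≠ c') {z : V ⊕ C}
    (hz : z ≠ Sum.inr c) (h : P.Big (2 * B) c z (Sum.inr c')) :
    P.E c' z = P.E c' (Sum.inr c) := by
  have hc' : (Sum.inr c' : V ⊕ C) ≠ Sum.inr c := fun h0 => hc (Sum.inr_injective h0).symm
  have h1 := B1 hB hz hc' (h.mono (by omega))
  ext p
  constructor
  · rintro ⟨hp1, hp2⟩
    refine ⟨hp1, ?_⟩
    have h2 : P.D.d z (Sum.inl p) = P.D.d z (Sum.inr c) + P.D.d (Sum.inr c) (Sum.inl p) := by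
      by_contra h3
      have h4 := P.D.tri z (Sum.inr c) (Sum.inl p)
      have h5 : P.Small B c z (Sum.inl p) := hB c z _ hz (by simp) (by omega)
      have h6 : P.D.d (Sum.inl p) (Sum.inr c') = 1 := (P.adj p c').mpr hp1
      have h7 : P.Small B c (Sum.inl p) (Sum.inr c') := by
        refine hB c _ _ (by simp) hc' ?_
        have h8 := D_pos (P := P) (x := Sum.inl p) (y := Sum.inr c) (by simp)
        have h9 := D_pos (P := P) hc'
        rw [P.D.comm] at h9
        omega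
      exact h.not_small le_rfl hz hc' ((h5.trans (by simp) h7).mono (by omega))
    omega
  · rintro ⟨hp1, hp2⟩
    refine ⟨hp1, ?_⟩
    have h2 := P.D.tri z (Sum.inr c) (Sum.inl p)
    have h6 : P.D.d (Sum.inl p) (Sum.inr c') = 1 := (P.adj p c').mpr hp1
    have h3 := P.D.tri z (Sum.inl p) (Sum.inr c')
    omega

/-- rotations move entry sets far -/
theorem rot_big {B Θ t : ℕ} (hB : P.BGI B) (hrot : P.Rot Θ) (ht : t + B < Θ) {c : C} {z : V ⊕ C}
    (hz : z ≠ Sum.inr c) {s : H} (hs : s ∈ P.G c) (hs1 : s ≠ 1) : P.Big t c z (s • z) := by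
  intro p hp q hq
  have hq' : q ∈ P.E (s • c) (s • z) := by rw [P.Gfix c s hs]; exact hq
  have h1 := mem_E_smul s hq'
  have h2 := hrot c s hs hs1 _ h1.1
  rw [smul_inv_smul] at h2
  have h3 := E_diam hB hz _ hp _ h1
  have h4 := P.X.tri (s⁻¹ • q) p q
  rw [P.X.comm (s⁻¹ • q) p] at h4
  omega

end CD

end Pool.Agent.H33.RD
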