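import Pool.Agent.H42.RD.WBasic

/-!
# Windmill theorem: levels, good elements, reduced forms
-/

set_option autoImplicit false

namespace Pool.Agent.H33.RD

namespace CD

variable {H V C : Type} [Group H] [MulAction H V] [MulAction H C] (P : CD H V C) (a : V)

/-- the group generated by the rotations about cone points at distance less than `k` from `a` -/
def Nk (k : ℕ) : Subgroup H :=
  Subgroup.closure {s | ∃ c, P.D.d (Sum.inl a) (Sum.inr c) < k ∧ s ∈ P.G c}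

/-- the translates of these cone points -/
def Uk (k : ℕ) : Set C := {u | ∃ w ∈ P.Nk a k, ∃ c, P.D.d (Sum.inl a) (Sum.inr c) < k ∧ u = w • c}

/-- good vertices of level `k` -/
def Gd (c₃ k : ℕ) (z : V ⊕ C) : Prop :=
  ∀ u ∈ P.Uk a k, z ≠ Sum.inr u → ∀ s ∈ P.G u, ∀ p ∈ P.E u (Sum.inl a), ∀ q ∈ P.E u z,
    P.X.d p q ≤ P.X.d (s • p) q + c₃

/-- new cone points of level `k` -/
def New (k : ℕ) : Set C := {c | P.D.d (Sum.inl a) (Sum.inr c) = k ∧
  ∀ w ∈ P.Nk a k, k ≤ P.D.d (w • Sum.inl a) (Sum.inr c)}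

/-- good new cone points of level `k` -/
def GN (c₃ k : ℕ) : Set C := {c | c ∈ P.New a k ∧ P.Gd a c₃ k (Sum.inr c)}

/-- reduced forms at level `k` -/
inductive RF (c₃ k : ℕ) : ℕ → Option C → H → Prop
  | nil (w : H) (hw : w ∈ P.Nk a k) : RF c₃ k 0 none w
  | cons (w₀ : H) (v : C) (s : H) (m : ℕ) (o : Option C) (w : H) (h₀ : w₀ ∈ P.Nk a k)
      (hv : v ∈ P.GN a c₃ k) (hs : s ∈ P.G v) (hs1 : s ≠ 1) (h : RF c₃ k m o w)
      (ho : o ≠ some v) : RF c₃ k (m + 1) (some (w₀ • v)) (w₀ * s * w)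

variable {P a}

theorem Nk_mono {k k' : ℕ} (h : k ≤ k') : P.Nk a k ≤ P.Nk a k' :=
  Subgroup.closure_mono fun _ ⟨c, hc, hs⟩ => ⟨c, lt_of_lt_of_le hc h, hs⟩

theorem Uk_mono {k k' : ℕ} (h : k ≤ k') : P.Uk a k ⊆ P.Uk a k' :=
  fun _ ⟨w, hw, c, hc, hu⟩ => ⟨w, Nk_mono h hw, c, lt_of_lt_of_le hc h, hu⟩

theorem Nk_zero {w : H} (hw : w ∈ P.Nk a 0) : w = 1 := by
  have h : {s | ∃ c, P.D.d (Sum.inl a) (Sum.inr c) < 0 ∧ s ∈ P.G c} = ∅ := by
    ext s; simp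
  rw [Nk, h, Subgroup.closure_empty, Subgroup.mem_bot] at hw
  exact hw

theorem G_smul {h : H} {c : C} {s : H} (hs : s ∈ P.G (h • c)) : h⁻¹ * s * h ∈ P.G c := by
  have := P.Gconj h⁻¹ (h • c) s hs
  rwa [inv_smul_smul, inv_inv] at this

theorem G_le_Nk {k : ℕ} {c : C} (hc : P.D.d (Sum.inl a) (Sum.inr c) < k) {s : H}
    (hs : s ∈ P.G c) : s ∈ P.Nk a k := Subgroup.subset_closure ⟨c, hc, hs⟩

theorem G_le_of_Uk {k : ℕ} {u : C} (hu : u ∈ P.Uk a k) {s : H} (hs : s ∈ P.G u) :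
    s ∈ P.Nk a k := by
  obtain ⟨w, hw, c, hc, rfl⟩ := hu
  have h1 := G_le_Nk hc (G_smul hs)
  have h2 : s = w * (w⁻¹ * s * w) * w⁻¹ := by group
  rw [h2]
  exact mul_mem (mul_mem hw h1) (inv_mem hw)

theorem Uk_smul {k : ℕ} {u : C} (hu : u ∈ P.Uk a k) {w : H} (hw : w ∈ P.Nk a k) :
    w • u ∈ P.Uk a k := by
  obtain ⟨w', hw', c, hc, rfl⟩ := hu
  exact ⟨w * w', mul_mem hw hw', c, hc, by rw [mul_smul]⟩

theorem mem_N {w : H} (hw : w ∈ P.N) (a : V) : ∃ k, w ∈ P.Nk a k := by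
  induction hw using Subgroup.closure_induction with
  | mem s hs =>
    obtain ⟨c, hc⟩ := hs
    exact ⟨_, G_le_Nk (Nat.lt_succ_self _) hc⟩
  | one => exact ⟨0, one_mem _⟩
  | mul x y _ _ hx hy =>
    obtain ⟨k, hk⟩ := hx
    obtain ⟨k', hk'⟩ := hy
    exact ⟨max k k', mul_mem (Nk_mono (le_max_left _ _) hk) (Nk_mono (le_max_right _ _) hk')⟩
  | inv x _ hx =>
    obtain ⟨k, hk⟩ := hx
    exact ⟨k, inv_mem hk⟩

theorem New_not_Uk {k : ℕ} {c : C} (hc : c ∈ P.New a k) : c ∉ P.Uk a k := by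
  rintro ⟨w, hw, c', hc', rfl⟩
  have h1 := hc.2 w hw
  rw [← Sum.smul_inr, P.Dinv] at h1
  omega

theorem New_mem_Uk {k : ℕ} {c : C} (hc : c ∈ P.New a k) {w : H} (hw : w ∈ P.Nk a k) :
    w • c ∈ P.Uk a (k + 1) :=
  ⟨w, Nk_mono (Nat.le_succ k) hw, c, by rw [hc.1]; exact Nat.lt_succ_self k, rfl⟩

theorem Gd_a {B c₃ : ℕ} (hB : P.BGI B) (h3 : B ≤ c₃) (k : ℕ) : P.Gd a c₃ k (Sum.inl a) := by
  intro u _ hu s _ p hp q hq
  have := E_diam hB hu p hp q hq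
  omega

theorem Gd_mono {c₃ k k' : ℕ} (h : k ≤ k') {z : V ⊕ C} (hz : P.Gd a c₃ k' z) :
    P.Gd a c₃ k z := fun u hu => hz u (Uk_mono h hu)

/-- a good vertex is far from rotated copies of the base -/
theorem Gd_big {c₃ k Θ T : ℕ} (hrot : P.Rot Θ) (hT : 2 * T + c₃ < Θ) {z : V ⊕ C}
    (hz : P.Gd a c₃ k z) {u : C} (hu : u ∈ P.Uk a k) (hzu : z ≠ Sum.inr u) {s : H}
    (hs : s ∈ P.G u) (hs1 : s ≠ 1) : P.Big T u (s • Sum.inl a) z := by
  intro p hp q hq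
  have hp' : p ∈ P.E (s • u) (s • Sum.inl a) := by rw [P.Gfix u s hs]; exact hp
  have h1 := mem_E_smul s hp'
  have h2 := hrot u s hs hs1 _ h1.1
  have h3 := hz u hu hzu s hs _ h1 q hq
  rw [smul_inv_smul] at h2 h3
  have h4 := P.X.tri (s⁻¹ • p) q p
  rw [P.X.comm q p] at h4
  omega

/-- Every new cone point is a translate of a good one. -/
theorem exists_good {B c₃ c₃' k : ℕ} (hB : P.BGI B) {dst : V → V ⊕ C → ℕ}
    (hdst : P.Shorten dst c₃) (h3 : c₃ ≤ c₃') (h3' : 3 * B ≤ c₃') {c : C} (hc : c ∈ P.New a k) :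
    ∃ κ ∈ P.Nk a k, ∃ v ∈ P.GN a c₃' k, c = κ • v := by
  classical
  have hex : ∃ n : ℕ, ∃ κ ∈ P.Nk a k, P.D.d (Sum.inl a) (Sum.inr (κ • c)) = k ∧
      dst a (Sum.inr (κ • c)) = n :=
    ⟨_, 1, one_mem _, by rw [one_smul]; exact hc.1, rfl⟩
  obtain ⟨κ, hκ, hκ1, hκ2⟩ := Nat.find_spec hex
  have hmin := fun n => Nat.find_min' hex (m := n)
  rw [← hκ2] at hmin
  have hnew : κ • c ∈ P.New a k := by
    refine ⟨hκ1, fun w hw => ?_⟩
    have h1 := hc.2 (κ⁻¹ * w) (mul_mem (inv_mem hκ) hw)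
    rw [← P.Dinv κ, ← mul_smul, mul_inv_cancel_left] at h1
    exact h1
  refine ⟨κ⁻¹, inv_mem hκ, κ • c, ⟨hnew, ?_⟩, by rw [inv_smul_smul]⟩
  intro u hu hne s hs p hp q hq
  by_cases hbig : P.Big B u (Sum.inl a) (Sum.inr (κ • c))
  · have h1 := B1 hB (by simp) hne hbig
    have hsN := G_le_of_Uk hu hs
    have h2 : P.D.d (Sum.inl a) (Sum.inr ((s⁻¹ * κ) • c)) = k := by
      apply le_antisymm
      · have h4 := P.D.tri (Sum.inl a) (Sum.inr u) (Sum.inr ((s⁻¹ * κ) • c))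
        have h5 : P.D.d (Sum.inr u) (Sum.inr ((s⁻¹ * κ) • c)) =
            P.D.d (Sum.inr u) (Sum.inr (κ • c)) := by
          rw [← P.Dinv s, Sum.smul_inr, Sum.smul_inr, P.Gfix u s hs, ← mul_smul,
            mul_inv_cancel_left]
        rw [h5, ← h1, hκ1] at h4
        exact h4
      · have h4 := hc.2 (κ⁻¹ * s) (mul_mem (inv_mem hκ) hsN)
        rw [← P.Dinv (s⁻¹ * κ), ← mul_smul] at h4
        have h5 : s⁻¹ * κ * (κ⁻¹ * s) = 1 := by group
        rw [h5, one_smul, Sum.smul_inr] at h4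
        exact h4
    have h3 := hmin _ ⟨s⁻¹ * κ, mul_mem (inv_mem hsN) hκ, h2, rfl⟩
    have h6 := hdst a (Sum.inr (κ • c)) u hne s hs (by
      rw [Sum.smul_inr, ← mul_smul]; exact h3) p hp q hq
    omega
  · have h1 := small_of_not_big hB (by simp) hne hbig p hp q hq
    omega

/-- Left multiplication of a reduced form by an element of `N_k`. -/
theorem RF.smul {c₃ k m : ℕ} {o : Option C} {w : H} (h : P.RF a c₃ k m o w) {n : H}
    (hn : n ∈ P.Nk a k) : P.RF a c₃ k m (o.map (n • ·)) (n * w) := by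
  cases h with
  | nil w hw => exact RF.nil _ (mul_mem hn hw)
  | cons w₀ v s m o w h₀ hv hs hs1 h ho =>
    have := RF.cons (n * w₀) v s m o w (mul_mem hn h₀) hv hs hs1 h ho
    rw [mul_smul] at this
    have e : n * (w₀ * s * w) = n * w₀ * s * w := by group
    rw [e]
    exact this

/-- Every element of `N_(k+1)` has a reduced form. -/
theorem exists_RF {B c₃ c₃' k : ℕ} (hB : P.BGI B) {dst : V → V ⊕ C → ℕ}
    (hdst : P.Shorten dst c₃) (h3 : c₃ ≤ c₃') (h3' : 3 * B ≤ c₃') {w : H}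
    (hw : w ∈ P.Nk a (k + 1)) : ∃ m o, P.RF a c₃' k m o w := by
  have key : ∀ s, (∃ c, P.D.d (Sum.inl a) (Sum.inr c) < k + 1 ∧ s ∈ P.G c) → ∀ w,
      (∃ m o, P.RF a c₃' k m o w) → ∃ m o, P.RF a c₃' k m o (s * w) := by
    rintro s ⟨c, hc, hs⟩ w ⟨m, o, hf⟩
    by_cases hc' : P.D.d (Sum.inl a) (Sum.inr c) < k
    · exact ⟨m, _, hf.smul (G_le_Nk hc' hs)⟩
    have hck : P.D.d (Sum.inl a) (Sum.inr c) = k := by omega
    by_cases hnew : c ∈ P.New a k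
    · obtain ⟨κ, hκ, v, hv, rfl⟩ := exists_good hB hdst h3 h3' hnew
      have hs' := G_smul hs
      set s' := κ⁻¹ * s * κ with hs'def
      have e1 : s * w = κ * s' * (κ⁻¹ * w) := by rw [hs'def]; group
      by_cases hs1 : s' = 1
      · refine ⟨m, o, ?_⟩
        rw [e1, hs1, mul_one, mul_inv_cancel_left]
        exact hf
      have hf' := hf.smul (inv_mem hκ)
      by_cases ho : o.map (κ⁻¹ • ·) = some v
      · rw [ho] at hf'
        generalize hw' : κ⁻¹ * w = w' at hf' e1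
        generalize ho' : some v = o' at hf'
        cases hf' with
        | nil w hw => exact absurd ho' (by simp)
        | cons w₀ v₁ s₁ m₁ o₁ w₁ h₀ hv₁ hs₁ hs1₁ hf₁ ho₁ =>
          have hvv : v = w₀ • v₁ := Option.some_injective _ ho'
          rw [hvv] at hs'
          have hs'' := G_smul hs'
          rw [e1]
          have e2 : κ * s' * (w₀ * s₁ * w₁) =
            (κ * w₀) * ((w₀⁻¹ * s' * w₀) * s₁) * w₁ := by group
          rw [e2]
          by_cases h1 : (w₀⁻¹ * s' * w₀) * s₁ = 1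
          · rw [h1, mul_one]
            exact ⟨_, _, hf₁.smul (mul_mem hκ h₀)⟩
          · exact ⟨_, _, RF.cons (κ * w₀) v₁ _ _ _ _ (mul_mem hκ h₀) hv₁
              (mul_mem hs'' hs₁) h1 hf₁ ho₁⟩
      · rw [e1]
        exact ⟨_, _, RF.cons κ v s' _ _ _ hκ hv hs' hs1 hf' ho⟩
    · have : ∃ w₁ ∈ P.Nk a k, P.D.d (w₁ • Sum.inl a) (Sum.inr c) < k := by
        by_contra hcon
        push Not at hcon
        exact hnew ⟨hck, hcon⟩
      obtain ⟨w₁, hw₁, hlt⟩ := this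
      have hlt' : P.D.d (Sum.inl a) (Sum.inr (w₁⁻¹ • c)) < k := by
        rw [← P.Dinv w₁, Sum.smul_inr, smul_inv_smul]
        exact hlt
      have hs' : w₁⁻¹ * s * w₁ ∈ P.G (w₁⁻¹ • c) := by
        have := P.Gconj w₁⁻¹ c s hs
        rwa [inv_inv] at this
      have h1 := G_le_Nk hlt' hs'
      have h2 : s = w₁ * (w₁⁻¹ * s * w₁) * w₁⁻¹ := by group
      have h4 : s ∈ P.Nk a k := by
        rw [h2]
        exact mul_mem (mul_mem hw₁ h1) (inv_mem hw₁)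
      exact ⟨m, _, hf.smul h4⟩
  induction hw using Subgroup.closure_induction_left with
  | one => exact ⟨0, none, RF.nil 1 (one_mem _)⟩
  | mul_left x hx y _ ih => exact key x hx y ih
  | inv_mul_cancel x hx y _ ih =>
    obtain ⟨c, hc, hs⟩ := hx
    exact key x⁻¹ ⟨c, hc, inv_mem hs⟩ y ih

theorem RF.mem {c₃ k m : ℕ} {o : Option C} {w : H} (h : P.RF a c₃ k m o w) :
    w ∈ P.Nk a (k + 1) := by
  induction h with
  | nil w hw => exact Nk_mono (Nat.le_succ k) hw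
  | cons w₀ v s m o w h₀ hv hs hs1 h ho ih =>
    refine mul_mem (mul_mem (Nk_mono (Nat.le_succ k) h₀) ?_) ih
    exact G_le_Nk (by rw [hv.1.1]; exact Nat.lt_succ_self k) hs

theorem RF.center {c₃ k m : ℕ} {o : Option C} {w : H} (h : P.RF a c₃ k m o w) {u : C}
    (hu : o = some u) : ∃ w₀ ∈ P.Nk a k, ∃ v ∈ P.GN a c₃ k, u = w₀ • v := by
  cases h with
  | nil w hw => exact absurd hu (by simp)
  | cons w₀ v s m o w h₀ hv hs hs1 h ho =>
    exact ⟨w₀, h₀, v, hv, (Option.some_injective _ hu).symm⟩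

end CD

end Pool.Agent.H33.RD
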